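import Mathlib
import Pool.Agent.Helper39.ParaAsm

namespace Pool.Agent.Results.MP_6ba1da_al.NotLinear

universe u v

/-- The `i`-th factor of the lower central series of `G`. Mathlib numbers the lower central series
from `0`, so this is `γ_{i+1}(G)/γ_{i+2}(G)` with `γ_1(G) = G`. -/
abbrev Factor (G : Type u) [Group G] (i : ℕ) : Type u :=
  (⊤ : Subgroup G).lowerCentralSeries i ⧸
    ((⊤ : Subgroup G).lowerCentralSeries (i + 1)).subgroupOf ((⊤ : Subgroup G).lowerCentralSeries i)

/-- Para-free groups, as in the problem: all factors of the lower central series are isomorphic to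
the corresponding factors of one free group (of any rank), and the lower central series intersects
in the trivial subgroup. -/
structure ParaFree (G : Type u) [Group G] : Prop where
  factors : ∃ X : Type u, ∀ i : ℕ, Nonempty (Factor G i ≃* Factor (FreeGroup X) i)
  iInf_eq_bot : ⨅ i : ℕ, (⊤ : Subgroup G).lowerCentralSeries i = ⊥

/-- There is a countable para-free group that has no injective homomorphism to `GL n R`, for any
commutative ring `R` and any `n`. -/
theorem result : ∃ (G : Type) (_ : Group G), Countable G ∧ ParaFree G ∧
    ∀ (R : Type v) (_ : CommRing R) (n : ℕ) (f : G →* Matrix.GeneralLinearGroup (Fin n) R),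
      ¬ Function.Injective f := by
  haveI := Helper39.ParaFree.countable_H
  refine ⟨FreeGroup ℕ × Helper39.ParaFree.H, inferInstance, inferInstance,
    ⟨⟨ℕ, Helper39.ParaFree.factors⟩, Helper39.ParaFree.residual⟩, ?_⟩
  intro R _ n f hf
  refine Helper39.ParaFree.not_linear (f.comp (MonoidHom.inr _ _)) ?_
  exact hf.comp (fun a b h => (Prod.mk.inj h).2)

end Pool.Agent.Results.MP_6ba1da_al.NotLinear
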